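import Pool.Agent.H27.AP.Targets
import Pool.Agent.H21.PI.Mean

/-!
Rows PIL and SM of the board apr_modules (MP_98b15b_nt).
-/

set_option autoImplicit false

open Finset Real Filter Topology

namespace Pool.Agent.H19.APR

open Pool.Agent.H27.AP

/-- Row PIL. -/
theorem pf_PIL : T_PIL := by
  intro η hη
  have h := Pool.Agent.H21.PI.pi_tendsto
  have h1 : ∀ᶠ n : ℕ in atTop, 1 - η < (Nat.primeCounting n : ℝ) * Real.log n / n :=
    h.eventually (lt_mem_nhds (by linarith))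
  obtain ⟨h₀, hh⟩ := eventually_atTop.1 (h1.and (eventually_ge_atTop 2))
  refine ⟨h₀, fun n hn => ?_⟩
  obtain ⟨h2, h3⟩ := hh n hn
  have hn0 : (0 : ℝ) < n := by
    have : 0 < n := by omega
    exact_mod_cast this
  have hl : 0 < Real.log n := Real.log_pos (by exact_mod_cast (by omega : 1 < n))
  rw [← mul_div_assoc, div_le_iff₀ hl]
  rw [lt_div_iff₀ hn0] at h2
  exact h2.le

/-- the number of the integers prime to `6` in `(x, x + h]`, `x ≡ r` modulo `6` -/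
def c6 (h r : ℕ) : ℕ := ((range h).filter fun i => (r + 1 + i) % 6 = 1 ∨ (r + 1 + i) % 6 = 5).card

lemma P_le_c6 (h x : ℕ) (hx : 3 ≤ x) : P h x ≤ c6 h (x % 6) := by
  unfold P c6
  have hsub : (Ioc x (x + h)).filter Nat.Prime ⊆ ((range h).filter fun i =>
      (x % 6 + 1 + i) % 6 = 1 ∨ (x % 6 + 1 + i) % 6 = 5).image (fun i => x + 1 + i) := by
    intro q hq
    rw [mem_filter, mem_Ioc] at hq
    obtain ⟨⟨h1, h2⟩, h3⟩ := hq
    rw [mem_image]
    refine ⟨q - x - 1, ?_, by omega⟩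
    rw [mem_filter, mem_range]
    refine ⟨by omega, ?_⟩
    have e : (x % 6 + 1 + (q - x - 1)) % 6 = q % 6 := by omega
    rw [e]
    have h4 : ¬ 2 ∣ q := fun hd => by
      have := (Nat.prime_dvd_prime_iff_eq Nat.prime_two h3).1 hd
      omega
    have h5 : ¬ 3 ∣ q := fun hd => by
      have := (Nat.prime_dvd_prime_iff_eq Nat.prime_three h3).1 hd
      omega
    omega
  exact le_trans (card_le_card hsub) card_image_le

lemma c6_bounds : ∀ r < 6, c6 1 r ≤ 1 ∧ c6 2 r ≤ 2 ∧ c6 4 r ≤ 3 ∧ c6 6 r ≤ 4 ∧ c6 10 r ≤ 5 ∧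
    c6 12 r ≤ 6 ∧ c6 16 r ≤ 7 ∧ c6 18 r ≤ 8 ∧ c6 22 r ≤ 9 ∧ c6 28 r ≤ 10 ∧ c6 30 r ≤ 11 ∧
    c6 36 r ≤ 12 := by
  unfold c6
  decide +kernel

lemma pc_vals : Nat.primeCounting 2 = 1 ∧ Nat.primeCounting 3 = 2 ∧ Nat.primeCounting 5 = 3 ∧
    Nat.primeCounting 7 = 4 ∧ Nat.primeCounting 11 = 5 ∧ Nat.primeCounting 13 = 6 ∧
    Nat.primeCounting 17 = 7 ∧ Nat.primeCounting 19 = 8 ∧ Nat.primeCounting 23 = 9 ∧
    Nat.primeCounting 29 = 10 ∧ Nat.primeCounting 31 = 11 ∧ Nat.primeCounting 37 = 12 ∧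
    Nat.primeCounting 38 = 12 ∧ Nat.primeCounting 41 = 13 := by
  decide +kernel

lemma P_two : P 1 2 ≤ 1 ∧ P 2 2 ≤ 2 ∧ P 4 2 ≤ 3 ∧ P 6 2 ≤ 4 ∧ P 10 2 ≤ 5 ∧ P 12 2 ≤ 6 ∧
    P 16 2 ≤ 7 ∧ P 18 2 ≤ 8 ∧ P 22 2 ≤ 9 ∧ P 28 2 ≤ 10 ∧ P 30 2 ≤ 11 ∧ P 36 2 ≤ 12 := by
  unfold P
  decide +kernel

/-- the short intervals behind a prime -/
lemma P_le_pi {q x : ℕ} (hq : q.Prime) (h12 : Nat.primeCounting q ≤ 12) (hx : x.Prime) :
    P (q - 1) x ≤ Nat.primeCounting q := by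
  have hq41 : q < 41 := by
    by_contra h
    have h1 : Nat.primeCounting 41 ≤ Nat.primeCounting q := Nat.monotone_primeCounting (by omega)
    rw [pc_vals.2.2.2.2.2.2.2.2.2.2.2.2.2] at h1
    omega
  obtain ⟨v1, v2, v3, v4, v5, v6, v7, v8, v9, v10, v11, v12, -, -⟩ := pc_vals
  obtain ⟨w1, w2, w3, w4, w5, w6, w7, w8, w9, w10, w11, w12⟩ := P_two
  have hb : P (q - 1) x ≤ if x = 2 then P (q - 1) 2 else c6 (q - 1) (x % 6) := by
    by_cases h2 : x = 2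
    · rw [if_pos h2, h2]
    · rw [if_neg h2]
      refine P_le_c6 _ _ ?_
      have := hx.two_le
      omega
  refine le_trans hb ?_
  obtain ⟨c1, c2, c3, c4, c5, c6', c7, c8, c9, c10, c11, c12⟩ :=
    c6_bounds (x % 6) (Nat.mod_lt _ (by norm_num))
  interval_cases q <;> first
    | (exfalso; revert hq; norm_num; done)
    | (simp only [v1, v2, v3, v4, v5, v6, v7, v8, v9, v10, v11, v12]
       split_ifs
       · assumption
       · assumption)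

/-- Row SM. -/
theorem pf_SM (hTRN : T_TRN) : T_SM := by
  intro a b ha hb hb12
  by_contra h
  push Not at h
  obtain ⟨h1, h2, h3, h4⟩ := hTRN a b ha hb h
  have h5 := P_le_pi (x := p a) h2 (by rw [h3]; exact hb12) h1
  omega

end Pool.Agent.H19.APR
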